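import Mathlib

set_option autoImplicit false

open MeasureTheory ProbabilityTheory Filter Topology
open scoped ENNReal NNReal

namespace Pool.Agent.Results.MP_417bbc_pr.BiasedNoiseErgodic

/-- Configurations `x ∈ {0,1}^{ℤ²}`, with the product topology and the product sigma-algebra. -/
abbrev Config : Type := ℤ × ℤ → Fin 2

/-- The five sites `i + N` with `N = {(0,0), (±1,0), (0,±1)}`. -/
def nbhd (i : ℤ × ℤ) : Finset (ℤ × ℤ) :=
  {i, i + (1, 0), i + (-1, 0), i + (0, 1), i + (0, -1)}

/-- The nearest-neighbour majority cellular automaton: `F x i` is the symbol held by at least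
three of the five sites `i + N`. -/
def F (x : Config) : Config := fun i =>
  if 3 ≤ ((nbhd i).filter (fun j => x j = 1)).card then 1 else 0

/-- A zero-range noise: a stochastic `2 × 2` matrix `θ`. -/
structure Noise where
  /-- the entries `θ a b` -/
  θ : Fin 2 → Fin 2 → ℝ
  nonneg : ∀ a b, 0 ≤ θ a b
  row_sum : ∀ a, ∑ b, θ a b = 1

/-- The noise is positive if all entries of the matrix are positive. -/
def Noise.Positive (N : Noise) : Prop := ∀ a b, 0 < N.θ a b

/-- The error level `ε(θ) = max_a (1 - θ(a,a))`. -/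
noncomputable def Noise.error (N : Noise) : ℝ := max (1 - N.θ 0 0) (1 - N.θ 1 1)

/-- The law `θ(a, ·)` on `{0,1}`. -/
noncomputable def Noise.site (N : Noise) (a : Fin 2) : Measure (Fin 2) :=
  ∑ b, ENNReal.ofReal (N.θ a b) • Measure.dirac b

/-- The transition probability of the perturbed automaton from `x`: compute `y = F x`, then
independently at every site `i` replace `y i` by `b` with probability `θ (y i) b`. -/
noncomputable def step (N : Noise) (x : Config) : Measure Config :=
  Measure.infinitePi (fun i => N.site (F x i))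

instance (N : Noise) (a : Fin 2) : IsProbabilityMeasure (N.site a) := by
  constructor
  simp only [Noise.site, Measure.coe_finsetSum, Finset.sum_apply, Measure.smul_apply, measure_univ, smul_eq_mul,
    mul_one]
  rw [← ENNReal.ofReal_sum_of_nonneg (fun b _ => N.nonneg a b), N.row_sum]
  simp

instance (N : Noise) (x : Config) : IsProbabilityMeasure (step N x) := by
  unfold step; infer_instance

/-! ### Randomisation of the transition probabilities -/

/-- noise variables: at each site a random map `Fin 2 → Fin 2`. -/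
abbrev NoiseField : Type := ℤ × ℤ → (Fin 2 → Fin 2)

noncomputable def nu (N : Noise) : Measure NoiseField :=
  Measure.infinitePi (fun _ => Measure.pi (fun a => N.site a))

instance (N : Noise) : IsProbabilityMeasure (nu N) := by
  unfold nu; infer_instance

/-- The random update map. -/
def G (x : Config) (w : NoiseField) : Config := fun i => w i (F x i)

lemma continuous_F_apply (i : ℤ × ℤ) : Continuous (fun x : Config => F x i) := by
  have h1 : Continuous (fun x : Config => ((nbhd i).filter (fun j => x j = 1)).card) := by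
    simp_rw [Finset.card_filter]
    refine continuous_finsetSum _ (fun j _ => ?_)
    exact (continuous_of_discreteTopology (f := fun a : Fin 2 => if a = 1 then 1 else 0)).comp
      (continuous_apply j)
  exact (continuous_of_discreteTopology (f := fun n : ℕ => if 3 ≤ n then (1 : Fin 2) else 0)).comp h1

lemma continuous_G : Continuous (fun p : Config × NoiseField => G p.1 p.2) := by
  refine continuous_pi (fun i => ?_)
  have h : Continuous (fun p : Config × NoiseField => ((p.2 i, F p.1 i) : (Fin 2 → Fin 2) × Fin 2)) :=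
    ((continuous_apply i).comp continuous_snd).prodMk ((continuous_F_apply i).comp continuous_fst)
  exact (continuous_of_discreteTopology (f := fun q : (Fin 2 → Fin 2) × Fin 2 => q.1 q.2)).comp h

lemma measurable_G : Measurable (fun p : Config × NoiseField => G p.1 p.2) := by
  refine measurable_pi_iff.2 (fun i => ?_)
  have h : Measurable (fun p : Config × NoiseField => ((p.2 i, F p.1 i) : (Fin 2 → Fin 2) × Fin 2)) :=
    ((measurable_pi_apply i).comp measurable_snd).prodMk
      ((continuous_F_apply i).measurable.comp measurable_fst)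
  exact (measurable_of_countable (fun q : (Fin 2 → Fin 2) × Fin 2 => q.1 q.2)).comp h

lemma step_eq_map (N : Noise) (x : Config) : step N x = (nu N).map (G x) := by
  have h := Measure.infinitePi_map_pi (μ := fun _ : ℤ × ℤ => Measure.pi (fun a => N.site a))
    (f := fun i (w : Fin 2 → Fin 2) => w (F x i)) (fun i => measurable_pi_apply _)
  unfold step nu G
  rw [h]
  congr 1
  funext i
  exact ((measurePreserving_eval (fun a => N.site a) (F x i)).map_eq).symm

lemma measurable_G_right (x : Config) : Measurable (G x) :=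
  measurable_G.comp measurable_prodMk_left

lemma measurable_step (N : Noise) : Measurable (step N) := by
  refine Measure.measurable_of_measurable_coe _ (fun s hs => ?_)
  have h : ∀ x, step N x s = nu N (Prod.mk x ⁻¹' ((fun p : Config × NoiseField => G p.1 p.2) ⁻¹' s)) := by
    intro x
    rw [step_eq_map, Measure.map_apply (measurable_G_right x) hs]
    rfl
  simp_rw [h]
  exact measurable_measure_prodMk_left (measurable_G hs)

/-- The action of the PCA `Φ_θ` on probability measures. -/
noncomputable def Phi (N : Noise) (μ : ProbabilityMeasure Config) : ProbabilityMeasure Config :=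
  ⟨(μ : Measure Config).bind (step N),
    isProbabilityMeasure_bind (measurable_step N).aemeasurable (ae_of_all _ fun _ => inferInstance)⟩

/-- `Φ_θ` is ergodic: it has a unique invariant probability measure `π` and `μ Φ_θ^t → π` weakly for every
initial probability measure `μ`. -/
def Ergodic (N : Noise) : Prop :=
  ∃ π : ProbabilityMeasure Config, Phi N π = π ∧ (∀ μ, Phi N μ = μ → μ = π) ∧
    ∀ μ, Tendsto (fun t : ℕ => (Phi N)^[t] μ) atTop (𝓝 π)

/-! ### Operators -/

/-- Expectation of `f` after one step. -/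
noncomputable def P (N : Noise) (f : Config → ℝ≥0∞) (x : Config) : ℝ≥0∞ :=
  ∫⁻ w, f (G x w) ∂(nu N)

/-- Expectation of `h` after one step of the coupled pair of processes. -/
noncomputable def Q (N : Noise) (h : Config × Config → ℝ≥0∞) (p : Config × Config) : ℝ≥0∞ :=
  ∫⁻ w, h (G p.1 w, G p.2 w) ∂(nu N)

lemma measurable_P (N : Noise) {f : Config → ℝ≥0∞} (hf : Measurable f) : Measurable (P N f) :=
  Measurable.lintegral_prod_right' (f := fun p : Config × NoiseField => f (G p.1 p.2))
    (hf.comp measurable_G)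

lemma measurable_Q (N : Noise) {h : Config × Config → ℝ≥0∞} (hh : Measurable h) :
    Measurable (Q N h) := by
  refine Measurable.lintegral_prod_right'
    (f := fun p : (Config × Config) × NoiseField => h (G p.1.1 p.2, G p.1.2 p.2)) ?_
  refine hh.comp (Measurable.prodMk ?_ ?_)
  · exact measurable_G.comp ((measurable_fst.comp measurable_fst).prodMk measurable_snd)
  · exact measurable_G.comp ((measurable_snd.comp measurable_fst).prodMk measurable_snd)

lemma measurable_P_iter (N : Noise) {f : Config → ℝ≥0∞} (hf : Measurable f) (t : ℕ) :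
    Measurable ((P N)^[t] f) := by
  induction t with
  | zero => exact hf
  | succ t ih => rw [Function.iterate_succ_apply']; exact measurable_P N ih

lemma measurable_Q_iter (N : Noise) {h : Config × Config → ℝ≥0∞} (hh : Measurable h) (t : ℕ) :
    Measurable ((Q N)^[t] h) := by
  induction t with
  | zero => exact hh
  | succ t ih => rw [Function.iterate_succ_apply']; exact measurable_Q N ih

lemma Q_mono (N : Noise) : Monotone (Q N) := fun _ _ h _ => lintegral_mono (fun _ => h _)

lemma P_mono (N : Noise) : Monotone (P N) := fun _ _ h _ => lintegral_mono (fun _ => h _)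

lemma Q_iter_mono (N : Noise) (t : ℕ) : Monotone ((Q N)^[t]) := (Q_mono N).iterate t

lemma P_iter_mono (N : Noise) (t : ℕ) : Monotone ((P N)^[t]) := (P_mono N).iterate t

lemma Q_iter_const (N : Noise) (c : ℝ≥0∞) (t : ℕ) : (Q N)^[t] (fun _ => c) = fun _ => c := by
  induction t with
  | zero => rfl
  | succ t ih =>
    rw [Function.iterate_succ_apply', ih]
    funext p
    simp [Q]

lemma Q_iter_add (N : Noise) {f g : Config × Config → ℝ≥0∞} (hf : Measurable f) (t : ℕ) :
    (Q N)^[t] (fun p => f p + g p) = fun p => (Q N)^[t] f p + (Q N)^[t] g p := by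
  induction t with
  | zero => rfl
  | succ t ih =>
    rw [Function.iterate_succ_apply', ih]
    funext p
    simp only [Function.iterate_succ_apply']
    unfold Q
    rw [lintegral_add_left]
    have := measurable_Q_iter N hf t
    refine this.comp (Measurable.prodMk ?_ ?_)
    · exact measurable_G_right _
    · exact measurable_G_right _

lemma Q_iter_sum (N : Noise) {ι : Type*} (s : Finset ι) (f : ι → Config × Config → ℝ≥0∞)
    (hf : ∀ i, Measurable (f i)) (t : ℕ) :
    (Q N)^[t] (fun p => ∑ i ∈ s, f i p) = fun p => ∑ i ∈ s, (Q N)^[t] (f i) p := by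
  classical
  induction s using Finset.induction_on with
  | empty => simpa using Q_iter_const N 0 t
  | insert a s ha ih =>
    simp only [Finset.sum_insert ha]
    rw [Q_iter_add N (hf a) t, ih]

lemma Q_iter_const_mul (N : Noise) (c : ℝ≥0∞) {f : Config × Config → ℝ≥0∞} (hf : Measurable f)
    (t : ℕ) :
    (Q N)^[t] (fun p => c * f p) = fun p => c * (Q N)^[t] f p := by
  induction t with
  | zero => rfl
  | succ t ih =>
    rw [Function.iterate_succ_apply', ih]
    funext p
    simp only [Function.iterate_succ_apply']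
    unfold Q
    rw [lintegral_const_mul]
    have := measurable_Q_iter N hf t
    refine this.comp (Measurable.prodMk ?_ ?_)
    · exact measurable_G_right _
    · exact measurable_G_right _

lemma Q_iter_fst (N : Noise) (f : Config → ℝ≥0∞) (t : ℕ) :
    (Q N)^[t] (fun p => f p.1) = fun p => (P N)^[t] f p.1 := by
  induction t with
  | zero => rfl
  | succ t ih =>
    rw [Function.iterate_succ_apply', ih]
    funext p
    simp only [Function.iterate_succ_apply']
    rfl

lemma Q_iter_snd (N : Noise) (f : Config → ℝ≥0∞) (t : ℕ) :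
    (Q N)^[t] (fun p => f p.2) = fun p => (P N)^[t] f p.2 := by
  induction t with
  | zero => rfl
  | succ t ih =>
    rw [Function.iterate_succ_apply', ih]
    funext p
    simp only [Function.iterate_succ_apply']
    rfl

lemma lintegral_step (N : Noise) {f : Config → ℝ≥0∞} (hf : Measurable f) (x : Config) :
    ∫⁻ y, f y ∂(step N x) = P N f x := by
  rw [step_eq_map, lintegral_map hf (measurable_G_right x)]
  rfl

lemma lintegral_Phi (N : Noise) {f : Config → ℝ≥0∞} (hf : Measurable f)
    (μ : ProbabilityMeasure Config) :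
    ∫⁻ y, f y ∂(Phi N μ : Measure Config) = ∫⁻ x, P N f x ∂(μ : Measure Config) := by
  change ∫⁻ y, f y ∂((μ : Measure Config).bind (step N)) = _
  rw [Measure.lintegral_bind (measurable_step N).aemeasurable hf.aemeasurable]
  simp_rw [lintegral_step N hf]

lemma lintegral_Phi_iter (N : Noise) {f : Config → ℝ≥0∞} (hf : Measurable f)
    (μ : ProbabilityMeasure Config) (t : ℕ) :
    ∫⁻ y, f y ∂((Phi N)^[t] μ : Measure Config) = ∫⁻ x, (P N)^[t] f x ∂(μ : Measure Config) := by
  induction t generalizing μ with
  | zero => rfl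
  | succ t ih =>
    rw [Function.iterate_succ_apply, ih, lintegral_Phi N (measurable_P_iter N hf t),
      Function.iterate_succ_apply']

/-! ### Stable blocks -/

/-- A two by two block. -/
def block (i : ℤ × ℤ) : Finset (ℤ × ℤ) := {i, i + (1, 0), i + (0, 1), i + (1, 1)}

lemma three_le {x : Config} {j a b c : ℤ × ℤ} (ha : a ∈ nbhd j) (hb : b ∈ nbhd j)
    (hc : c ∈ nbhd j) (hab : a ≠ b) (hac : a ≠ c) (hbc : b ≠ c) (xa : x a = 1) (xb : x b = 1)
    (xc : x c = 1) : F x j = 1 := by
  unfold F
  rw [if_pos]
  have hcard : ({a, b, c} : Finset (ℤ × ℤ)).card = 3 := by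
    rw [Finset.card_insert_of_notMem (by simp [hab, hac]), Finset.card_insert_of_notMem (by simp [hbc])]
    simp
  rw [← hcard]
  apply Finset.card_le_card
  intro y hy
  simp only [Finset.mem_insert, Finset.mem_singleton] at hy
  rw [Finset.mem_filter]
  rcases hy with rfl | rfl | rfl
  · exact ⟨ha, xa⟩
  · exact ⟨hb, xb⟩
  · exact ⟨hc, xc⟩

lemma F_block {x : Config} {i : ℤ × ℤ} (h : ∀ a ∈ block i, x a = 1) :
    ∀ a ∈ block i, F x a = 1 := by
  obtain ⟨i1, i2⟩ := i
  have h0 : x (i1, i2) = 1 := h _ (by simp [block])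
  have h1 : x (i1 + 1, i2) = 1 := h _ (by simp [block])
  have h2 : x (i1, i2 + 1) = 1 := h _ (by simp [block])
  have h3 : x (i1 + 1, i2 + 1) = 1 := h _ (by simp [block])
  intro a ha
  simp only [block, Finset.mem_insert, Finset.mem_singleton, Prod.mk_add_mk, add_zero] at ha
  rcases ha with rfl | rfl | rfl | rfl
  · exact three_le (a := (i1, i2)) (b := (i1 + 1, i2)) (c := (i1, i2 + 1)) (by simp [nbhd])
      (by simp [nbhd]) (by simp [nbhd]) (by simp) (by simp) (by simp) h0 h1 h2
  · exact three_le (a := (i1 + 1, i2)) (b := (i1, i2)) (c := (i1 + 1, i2 + 1)) (by simp [nbhd])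
      (by simp [nbhd]) (by simp [nbhd]) (by simp) (by simp) (by simp) h1 h0 h3
  · exact three_le (a := (i1, i2 + 1)) (b := (i1, i2)) (c := (i1 + 1, i2 + 1)) (by simp [nbhd])
      (by simp [nbhd]) (by simp [nbhd]) (by simp) (by simp) (by simp) h2 h0 h3
  · exact three_le (a := (i1 + 1, i2 + 1)) (b := (i1, i2 + 1)) (c := (i1 + 1, i2)) (by simp [nbhd])
      (by simp [nbhd]) (by simp [nbhd]) (by simp) (by simp) (by simp) h3 h2 h1

/-- Indicator that the block at `i` is not full of ones. -/
noncomputable def v (i : ℤ × ℤ) (x : Config) : ℝ≥0∞ := if ∀ a ∈ block i, x a = 1 then 0 else 1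

lemma measurable_v (i : ℤ × ℤ) : Measurable (v i) := by
  unfold v
  refine Measurable.ite ?_ measurable_const measurable_const
  have : {x : Config | ∀ a ∈ block i, x a = 1} = ⋂ a ∈ block i, {x : Config | x a = 1} := by
    ext x; simp
  rw [this]
  exact Finset.measurableSet_biInter _ (fun a _ => measurable_pi_apply a (measurableSet_singleton 1))

lemma v_le_one (i : ℤ × ℤ) (x : Config) : v i x ≤ 1 := by
  unfold v; split_ifs <;> simp

lemma card_block (i : ℤ × ℤ) : (block i).card = 4 := by
  obtain ⟨i1, i2⟩ := i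
  unfold block
  rw [Finset.card_insert_of_notMem (by simp), Finset.card_insert_of_notMem (by simp),
    Finset.card_insert_of_notMem (by simp)]
  simp

lemma site_zero (N : Noise) (a b : Fin 2) : N.site a {b} = ENNReal.ofReal (N.θ a b) := by
  fin_cases b <;> simp [Noise.site, Fin.sum_univ_two]

lemma nu_single (N : Noise) (j : ℤ × ℤ) (S : Set (Fin 2 → Fin 2)) (hS : MeasurableSet S) :
    nu N {w | w j ∈ S} = Measure.pi (fun a => N.site a) S := by
  have h := (measurePreserving_eval_infinitePi
    (fun _ : ℤ × ℤ => Measure.pi (fun a => N.site a)) j).measure_preimage hS.nullMeasurableSet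
  exact h

lemma P_v_le (N : Noise) (i : ℤ × ℤ) (x : Config) :
    P N (v i) x ≤ 4 * ENNReal.ofReal (N.θ 1 0) +
      (1 - (ENNReal.ofReal (N.θ 0 1) * ENNReal.ofReal (N.θ 1 1)) ^ 4) * v i x := by
  by_cases hx : ∀ a ∈ block i, x a = 1
  · -- full block: it survives unless there is an error
    have hF := F_block hx
    have hvx : v i x = 0 := by unfold v; rw [if_pos hx]
    rw [hvx, mul_zero, add_zero]
    have h1 : P N (v i) x ≤ ∫⁻ w, ∑ a ∈ block i, Set.indicator {w : NoiseField | w a 1 = 0} 1 w ∂(nu N) := by
      refine lintegral_mono (fun w => ?_)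
      by_cases hw : ∀ a ∈ block i, G x w a = 1
      · have : v i (G x w) = 0 := by unfold v; rw [if_pos hw]
        rw [this]; exact zero_le
      · push Not at hw
        obtain ⟨a, ha, hwa⟩ := hw
        refine (v_le_one i _).trans ?_
        have hmem : w ∈ {w : NoiseField | w a 1 = 0} := by
          have h2 : G x w a = w a 1 := by unfold G; rw [hF a ha]
          rw [h2] at hwa
          change w a 1 = 0
          omega
        calc (1 : ℝ≥0∞) = Set.indicator {w : NoiseField | w a 1 = 0} 1 w := by
              rw [Set.indicator_of_mem hmem]; rfl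
          _ ≤ _ := Finset.single_le_sum (f := fun a => Set.indicator {w : NoiseField | w a 1 = 0} (1 : NoiseField → ℝ≥0∞) w)
              (fun _ _ => zero_le) ha
    refine h1.trans ?_
    have hms : ∀ a : ℤ × ℤ, MeasurableSet {w : NoiseField | w a 1 = 0} := fun a =>
      ((measurable_pi_apply (1 : Fin 2)).comp (measurable_pi_apply a)) (measurableSet_singleton 0)
    rw [lintegral_finsetSum _ (fun a _ => measurable_one.indicator (hms a))]
    have h3 : ∀ a ∈ block i, ∫⁻ w, Set.indicator {w : NoiseField | w a 1 = 0} 1 w ∂(nu N)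
        = ENNReal.ofReal (N.θ 1 0) := by
      intro a _
      rw [lintegral_indicator_one (hms a)]
      have h4 : {w : NoiseField | w a 1 = 0} = {w : NoiseField | w a ∈ (fun u : Fin 2 → Fin 2 => u 1) ⁻¹' {0}} := by
        ext w; simp
      rw [h4, nu_single N a _ (measurable_pi_apply 1 (measurableSet_singleton 0)),
        ← site_zero N 1 0]
      exact (measurePreserving_eval (fun a => N.site a) 1).measure_preimage
        (measurableSet_singleton _).nullMeasurableSet
    rw [Finset.sum_congr rfl h3, Finset.sum_const, card_block, nsmul_eq_mul]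
    norm_num
  · -- block not full: it becomes full with positive probability
    have hvx : v i x = 1 := by unfold v; rw [if_neg hx]
    rw [hvx, mul_one]
    refine le_trans ?_ le_add_self
    set A : Set NoiseField := Set.pi (block i) (fun _ => {u : Fin 2 → Fin 2 | u 0 = 1 ∧ u 1 = 1}) with hA
    have hmA : MeasurableSet A :=
      MeasurableSet.pi (Finset.countable_toSet _) (fun _ _ => (Set.toFinite _).measurableSet)
    have hnuA : nu N A = (ENNReal.ofReal (N.θ 0 1) * ENNReal.ofReal (N.θ 1 1)) ^ 4 := by
      have hset : {u : Fin 2 → Fin 2 | u 0 = 1 ∧ u 1 = 1} = Set.pi Set.univ (fun _ => {(1 : Fin 2)}) := by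
        ext u
        simp [Set.mem_pi, Fin.forall_fin_two]
      rw [hA]
      unfold nu
      rw [Measure.infinitePi_pi _ (fun _ _ => (Set.toFinite _).measurableSet), Finset.prod_const,
        card_block, hset, Measure.pi_pi]
      simp [Fin.prod_univ_two, site_zero]
    have h1 : P N (v i) x ≤ ∫⁻ w, Set.indicator Aᶜ 1 w ∂(nu N) := by
      refine lintegral_mono (fun w => ?_)
      by_cases hw : w ∈ A
      · have : v i (G x w) = 0 := by
          unfold v
          rw [if_pos]
          intro a ha
          have h2 := hw a ha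
          simp only [Set.mem_ofPred_eq] at h2
          unfold G
          generalize F x a = c
          fin_cases c
          · exact h2.1
          · exact h2.2
        rw [this]; exact zero_le
      · rw [Set.indicator_of_mem (by exact hw)]
        exact v_le_one i _
    refine h1.trans ?_
    rw [lintegral_indicator_one hmA.compl, measure_compl hmA (measure_ne_top _ _), measure_univ, hnuA]

lemma P_iter_v_le (N : Noise) (i : ℤ × ℤ) (r s : ℝ≥0∞) (hr : r ≤ 1)
    (h : ∀ x, P N (v i) x ≤ s + r * v i x) (t : ℕ) (x : Config) :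
    (P N)^[t] (v i) x ≤ t * s + r ^ t * v i x := by
  induction t generalizing x with
  | zero => simp
  | succ t ih =>
    rw [Function.iterate_succ_apply']
    calc P N ((P N)^[t] (v i)) x ≤ P N (fun x => t * s + r ^ t * v i x) x := P_mono N (fun x => ih x) x
      _ = t * s + r ^ t * P N (v i) x := by
          have hm : Measurable (fun w => v i (G x w)) := (measurable_v i).comp (measurable_G_right x)
          unfold P
          rw [lintegral_add_left measurable_const, lintegral_const_mul _ hm]
          simp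
      _ ≤ t * s + r ^ t * (s + r * v i x) := by gcongr; exact h x
      _ = t * s + r ^ t * s + r ^ (t + 1) * v i x := by ring
      _ ≤ t * s + 1 * s + r ^ (t + 1) * v i x := by
          gcongr
          exact pow_le_one' hr t
      _ = ((t + 1 : ℕ) : ℝ≥0∞) * s + r ^ (t + 1) * v i x := by push_cast; ring

/-- Disagreement at site `i`. -/
noncomputable def hd (i : ℤ × ℤ) (p : Config × Config) : ℝ≥0∞ := if p.1 i = p.2 i then 0 else 1

lemma measurable_hd (i : ℤ × ℤ) : Measurable (hd i) := by
  unfold hd
  refine Measurable.ite ?_ measurable_const measurable_const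
  exact measurableSet_eq_fun ((measurable_pi_apply i).comp measurable_fst)
    ((measurable_pi_apply i).comp measurable_snd)

lemma hd_le (i : ℤ × ℤ) (p : Config × Config) : hd i p ≤ v i p.1 + v i p.2 := by
  unfold hd
  split_ifs with h
  · exact zero_le
  · by_cases h1 : ∀ a ∈ block i, p.1 a = 1
    · have h2 : ¬ ∀ a ∈ block i, p.2 a = 1 := by
        intro h2
        apply h
        have hi : i ∈ block i := by simp [block]
        rw [h1 i hi, h2 i hi]
      have : v i p.2 = 1 := by unfold v; rw [if_neg h2]
      rw [this]; exact le_add_self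
    · have : v i p.1 = 1 := by unfold v; rw [if_neg h1]
      rw [this]; exact le_self_add

lemma Q_iter_hd_le (N : Noise) (i : ℤ × ℤ) (r s : ℝ≥0∞) (hr : r ≤ 1)
    (h : ∀ x, P N (v i) x ≤ s + r * v i x) (t : ℕ) (p : Config × Config) :
    (Q N)^[t] (hd i) p ≤ 2 * (t * s + r ^ t) := by
  have hb : ∀ x, (P N)^[t] (v i) x ≤ t * s + r ^ t := by
    intro x
    refine (P_iter_v_le N i r s hr h t x).trans ?_
    gcongr
    calc r ^ t * v i x ≤ r ^ t * 1 := by gcongr; exact v_le_one i x
      _ = r ^ t := mul_one _
  calc (Q N)^[t] (hd i) p ≤ (Q N)^[t] (fun p => v i p.1 + v i p.2) p :=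
        Q_iter_mono N t (fun p => hd_le i p) p
    _ = (P N)^[t] (v i) p.1 + (P N)^[t] (v i) p.2 := by
        rw [Q_iter_add N (f := fun p => v i p.1) ((measurable_v i).comp measurable_fst) t,
          Q_iter_fst, Q_iter_snd]
    _ ≤ (t * s + r ^ t) + (t * s + r ^ t) := add_le_add (hb _) (hb _)
    _ = 2 * (t * s + r ^ t) := by ring

/-- A box of radius `n` around `i`. -/
noncomputable def box (i : ℤ × ℤ) (n : ℕ) : Finset (ℤ × ℤ) :=
  Finset.Icc (i.1 - n) (i.1 + n) ×ˢ Finset.Icc (i.2 - n) (i.2 + n)

lemma card_box (i : ℤ × ℤ) (n : ℕ) : (box i n).card = (2 * n + 1) ^ 2 := by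
  unfold box
  rw [Finset.card_product, Int.card_Icc, Int.card_Icc]
  have h1 : (i.1 + n + 1 - (i.1 - n)).toNat = 2 * n + 1 := by omega
  have h2 : (i.2 + n + 1 - (i.2 - n)).toNat = 2 * n + 1 := by omega
  rw [h1, h2]; ring

lemma F_congr {x y : Config} {i : ℤ × ℤ} (h : ∀ j ∈ nbhd i, x j = y j) : F x i = F y i := by
  unfold F
  have : (nbhd i).filter (fun j => x j = 1) = (nbhd i).filter (fun j => y j = 1) := by
    apply Finset.filter_congr
    intro j hj
    rw [h j hj]
  rw [this]

lemma nbhd_subset_box {i j : ℤ × ℤ} {n : ℕ} (hj : j ∈ box i n) : nbhd j ⊆ box i (n + 1) := by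
  obtain ⟨i1, i2⟩ := i
  obtain ⟨j1, j2⟩ := j
  intro k hk
  simp only [box, Finset.mem_product, Finset.mem_Icc] at hj ⊢
  simp only [nbhd, Finset.mem_insert, Finset.mem_singleton, Prod.mk_add_mk] at hk
  push_cast
  rcases hk with rfl | rfl | rfl | rfl | rfl <;> simp only <;> omega

lemma Q_iter_hd_eq_zero (N : Noise) (i : ℤ × ℤ) (n : ℕ) (p : Config × Config)
    (h : ∀ j ∈ box i n, p.1 j = p.2 j) : (Q N)^[n] (hd i) p = 0 := by
  induction n generalizing p with
  | zero =>
    have hi : i ∈ box i 0 := by simp [box]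
    simp [hd, h i hi]
  | succ n ih =>
    rw [Function.iterate_succ_apply']
    unfold Q
    rw [lintegral_eq_zero_iff']
    · refine ae_of_all _ (fun w => ?_)
      refine ih _ (fun j hj => ?_)
      unfold G
      simp only
      rw [F_congr (fun k hk => h k (nbhd_subset_box hj hk))]
    · refine Measurable.aemeasurable ?_
      have := measurable_Q_iter N (measurable_hd i) n
      refine this.comp (Measurable.prodMk ?_ ?_)
      · exact measurable_G_right _
      · exact measurable_G_right _

lemma Q_iter_hd_le_sum (N : Noise) (i : ℤ × ℤ) (r s : ℝ≥0∞) (hr : r ≤ 1)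
    (h : ∀ x, P N (v i) x ≤ s + r * v i x) (T : ℕ) (p : Config × Config) :
    (Q N)^[T] (hd i) p ≤ (2 * (T * s + r ^ T)) * ∑ j ∈ box i T, hd j p := by
  by_cases hp : ∀ j ∈ box i T, p.1 j = p.2 j
  · rw [Q_iter_hd_eq_zero N i T p hp]; exact zero_le
  · push Not at hp
    obtain ⟨j, hj, hne⟩ := hp
    have h1 : (1 : ℝ≥0∞) ≤ ∑ j ∈ box i T, hd j p := by
      calc (1 : ℝ≥0∞) = hd j p := by unfold hd; rw [if_neg hne]
        _ ≤ _ := Finset.single_le_sum (f := fun j => hd j p) (fun _ _ => zero_le) hj
    calc (Q N)^[T] (hd i) p ≤ 2 * (T * s + r ^ T) := Q_iter_hd_le N i r s hr h T p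
      _ = (2 * (T * s + r ^ T)) * 1 := (mul_one _).symm
      _ ≤ _ := by gcongr

/-- Contraction over `T * k` steps. -/
lemma Q_iter_contract (N : Noise) (r s : ℝ≥0∞) (hr : r ≤ 1)
    (h : ∀ i x, P N (v i) x ≤ s + r * v i x) (T k : ℕ) (i : ℤ × ℤ) (p : Config × Config) :
    (Q N)^[T * k] (hd i) p ≤ ((2 * (T * s + r ^ T)) * ((2 * T + 1) ^ 2 : ℕ)) ^ k := by
  induction k generalizing i p with
  | zero =>
    simp only [mul_zero, pow_zero, Function.iterate_zero, id]
    unfold hd; split_ifs <;> simp
  | succ k ih =>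
    have e : T * (k + 1) = T * k + T := by ring
    rw [e, Function.iterate_add_apply]
    calc (Q N)^[T * k] ((Q N)^[T] (hd i)) p
        ≤ (Q N)^[T * k] (fun p => (2 * (T * s + r ^ T)) * ∑ j ∈ box i T, hd j p) p :=
          Q_iter_mono N _ (fun p => Q_iter_hd_le_sum N i r s hr (h i) T p) p
      _ = (2 * (T * s + r ^ T)) * ∑ j ∈ box i T, (Q N)^[T * k] (hd j) p := by
          rw [Q_iter_const_mul N _ (Finset.measurable_sum _ (fun j _ => measurable_hd j)),
            Q_iter_sum N _ _ (fun j => measurable_hd j)]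
      _ ≤ (2 * (T * s + r ^ T)) *
            ∑ j ∈ box i T, ((2 * (T * s + r ^ T)) * ((2 * T + 1) ^ 2 : ℕ)) ^ k := by
          gcongr with j _
          exact ih j p
      _ = ((2 * (T * s + r ^ T)) * ((2 * T + 1) ^ 2 : ℕ)) ^ (k + 1) := by
          rw [Finset.sum_const, card_box, nsmul_eq_mul, pow_succ]
          ring

lemma Q_iter_le_div (N : Noise) (ρ : ℝ≥0∞) (T : ℕ) (i : ℤ × ℤ)
    (h : ∀ k p, (Q N)^[T * k] (hd i) p ≤ ρ ^ k) (t : ℕ) (p : Config × Config) :
    (Q N)^[t] (hd i) p ≤ ρ ^ (t / T) := by
  conv_lhs => rw [← Nat.mod_add_div t T]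
  rw [Function.iterate_add_apply]
  calc (Q N)^[t % T] ((Q N)^[T * (t / T)] (hd i)) p ≤ (Q N)^[t % T] (fun _ => ρ ^ (t / T)) p :=
        Q_iter_mono N _ (fun p => h _ p) p
    _ = ρ ^ (t / T) := by rw [Q_iter_const]

/-! ### From contraction to ergodicity -/

lemma cylinder_contract (N : Noise) (S : Set Config) (hS : MeasurableSet S) (s : Finset (ℤ × ℤ))
    (hdep : ∀ x y : Config, (∀ i ∈ s, x i = y i) → (x ∈ S ↔ y ∈ S)) (t : ℕ) (η : ℝ≥0∞)
    (hη : ∀ i p, (Q N)^[t] (hd i) p ≤ η) (μ μ' : ProbabilityMeasure Config) :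
    ((Phi N)^[t] μ : Measure Config) S ≤ ((Phi N)^[t] μ' : Measure Config) S + s.card * η := by
  have hmS : Measurable (S.indicator (1 : Config → ℝ≥0∞)) := measurable_one.indicator hS
  have key : ∀ x y, (P N)^[t] (S.indicator 1) x ≤ (P N)^[t] (S.indicator 1) y + s.card * η := by
    intro x y
    have h1 : (fun p : Config × Config => S.indicator (1 : Config → ℝ≥0∞) p.1) ≤
        (fun p => S.indicator 1 p.2 + ∑ i ∈ s, hd i p) := by
      intro p
      by_cases hp : ∀ i ∈ s, p.1 i = p.2 i
      · have h2 := hdep _ _ hp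
        have h3 : S.indicator (1 : Config → ℝ≥0∞) p.1 = S.indicator 1 p.2 := by
          by_cases h4 : p.1 ∈ S
          · rw [Set.indicator_of_mem h4, Set.indicator_of_mem (h2.1 h4)]; rfl
          · rw [Set.indicator_of_notMem h4, Set.indicator_of_notMem (fun h5 => h4 (h2.2 h5))]
        simp only
        rw [h3]; exact le_self_add
      · push Not at hp
        obtain ⟨j, hj, hne⟩ := hp
        have h5 : S.indicator (1 : Config → ℝ≥0∞) p.1 ≤ 1 := Set.indicator_le_self' (by simp) _
        refine h5.trans (le_trans ?_ le_add_self)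
        calc (1 : ℝ≥0∞) = hd j p := by unfold hd; rw [if_neg hne]
          _ ≤ _ := Finset.single_le_sum (f := fun j => hd j p) (fun _ _ => zero_le) hj
    calc (P N)^[t] (S.indicator 1) x
        = (Q N)^[t] (fun p : Config × Config => S.indicator (1 : Config → ℝ≥0∞) p.1) (x, y) := by
          rw [Q_iter_fst]
      _ ≤ (Q N)^[t] (fun p => S.indicator 1 p.2 + ∑ i ∈ s, hd i p) (x, y) := Q_iter_mono N t h1 _
      _ = (P N)^[t] (S.indicator 1) y + ∑ i ∈ s, (Q N)^[t] (hd i) (x, y) := by
          rw [Q_iter_add N (f := fun p : Config × Config => S.indicator (1 : Config → ℝ≥0∞) p.2)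
            (hmS.comp measurable_snd), Q_iter_snd, Q_iter_sum N _ _ (fun j => measurable_hd j)]
      _ ≤ (P N)^[t] (S.indicator 1) y + ∑ _i ∈ s, η := by
          gcongr with i _
          exact hη i _
      _ = _ := by rw [Finset.sum_const, nsmul_eq_mul]
  have e : ∀ μ : ProbabilityMeasure Config, ((Phi N)^[t] μ : Measure Config) S =
      ∫⁻ x, (P N)^[t] (S.indicator 1) x ∂(μ : Measure Config) := by
    intro μ
    rw [← lintegral_Phi_iter N hmS μ t, lintegral_indicator_one hS]
  rw [e μ, e μ']
  have h6 : ∀ y, ∫⁻ x, (P N)^[t] (S.indicator 1) x ∂(μ : Measure Config) ≤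
      (P N)^[t] (S.indicator 1) y + s.card * η := by
    intro y
    calc ∫⁻ x, (P N)^[t] (S.indicator 1) x ∂(μ : Measure Config)
        ≤ ∫⁻ _x, ((P N)^[t] (S.indicator 1) y + s.card * η) ∂(μ : Measure Config) :=
          lintegral_mono (fun x => key x y)
      _ = _ := by simp
  calc ∫⁻ x, (P N)^[t] (S.indicator 1) x ∂(μ : Measure Config)
      = ∫⁻ _y, (∫⁻ x, (P N)^[t] (S.indicator 1) x ∂(μ : Measure Config)) ∂(μ' : Measure Config) := by
        simp
    _ ≤ ∫⁻ y, ((P N)^[t] (S.indicator 1) y + s.card * η) ∂(μ' : Measure Config) :=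
        lintegral_mono (fun y => h6 y)
    _ = _ := by
        rw [lintegral_add_right _ measurable_const]
        simp

lemma continuous_Phi (N : Noise) : Continuous (Phi N) := by
  rw [continuous_iff_continuousAt]
  intro μ₀
  unfold ContinuousAt
  rw [ProbabilityMeasure.tendsto_iff_forall_lintegral_tendsto]
  intro f
  -- the averaged function is continuous
  have hbd : ∀ (x : Config) (w : NoiseField), ‖(f (G x w) : ℝ)‖ ≤ ((nndist f 0 : ℝ≥0) : ℝ) := by
    intro x w
    rw [Real.norm_of_nonneg (NNReal.coe_nonneg _)]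
    exact_mod_cast BoundedContinuousFunction.NNReal.upper_bound f (G x w)
  have hint : ∀ x : Config, Integrable (fun w => (f (G x w) : ℝ)) (nu N) := by
    intro x
    refine Integrable.of_bound (C := ((nndist f 0 : ℝ≥0) : ℝ)) ?_ (ae_of_all _ fun w => hbd x w)
    refine Measurable.aestronglyMeasurable ?_
    exact (NNReal.continuous_coe.comp f.continuous).measurable.comp (measurable_G_right x)
  have hcont : Continuous (fun x : Config => ∫ w, (f (G x w) : ℝ) ∂(nu N)) := by
    refine continuous_of_dominated (bound := fun _ => ((nndist f 0 : ℝ≥0) : ℝ))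
      (fun x => (hint x).aestronglyMeasurable)
      (fun x => ae_of_all _ fun w => hbd x w) (integrable_const _) (ae_of_all _ fun w => ?_)
    refine NNReal.continuous_coe.comp (f.continuous.comp ?_)
    exact continuous_G.comp (continuous_id.prodMk continuous_const)
  have hnn : ∀ x : Config, 0 ≤ ∫ w, (f (G x w) : ℝ) ∂(nu N) := fun x =>
    integral_nonneg (fun w => NNReal.coe_nonneg _)
  let g : BoundedContinuousFunction Config ℝ≥0 :=
    BoundedContinuousFunction.mkOfCompact
      ⟨fun x => ⟨∫ w, (f (G x w) : ℝ) ∂(nu N), hnn x⟩, hcont.subtype_mk _⟩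
  have hg : ∀ x, P N (fun y => (f y : ℝ≥0∞)) x = (g x : ℝ≥0∞) := by
    intro x
    have h1 := ofReal_integral_eq_lintegral_ofReal (hint x)
      (ae_of_all _ fun w => NNReal.coe_nonneg _)
    unfold P
    simp only [ENNReal.ofReal_coe_nnreal] at h1
    rw [← h1]
    have h2 : (∫ w, (f (G x w) : ℝ) ∂(nu N)) = ((g x : ℝ≥0) : ℝ) := rfl
    rw [h2, ENNReal.ofReal_coe_nnreal]
  have hf : Measurable (fun y => (f y : ℝ≥0∞)) :=
    (ENNReal.continuous_coe.comp f.continuous).measurable
  simp_rw [lintegral_Phi N hf, hg]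
  have h0 : Tendsto (fun μ : ProbabilityMeasure Config => μ) (𝓝 μ₀) (𝓝 μ₀) := tendsto_id
  exact (ProbabilityMeasure.tendsto_iff_forall_lintegral_tendsto.1 h0) g

/-- Convergence of all cylinder probabilities implies weak convergence. -/
lemma tendsto_of_cylinders (u : ℕ → ProbabilityMeasure Config) (π : ProbabilityMeasure Config)
    (h : ∀ S ∈ measurableCylinders (fun _ : ℤ × ℤ => Fin 2),
      Tendsto (fun t => (u t : Measure Config) S) atTop (𝓝 ((π : Measure Config) S))) :
    Tendsto u atTop (𝓝 π) := by
  refine le_nhds_of_unique_clusterPt (fun ρ hρ => ?_)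
  have hρ' : MapClusterPt ρ atTop u := hρ
  rw [mapClusterPt_iff_ultrafilter] at hρ'
  obtain ⟨U, hU, hUρ⟩ := hρ'
  apply ProbabilityMeasure.toMeasure_injective
  refine ext_of_generate_finite (measurableCylinders (fun _ : ℤ × ℤ => Fin 2))
    (generateFrom_measurableCylinders).symm isPiSystem_measurableCylinders (fun S hS => ?_) (by simp)
  have hclopen : IsClopen S := by
    obtain ⟨s, T, _, rfl⟩ := (mem_measurableCylinders S).1 hS
    have hT : IsClopen T := isClopen_discrete T
    exact hT.preimage (continuous_pi (fun i => continuous_apply _))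
  have h1 := ProbabilityMeasure.tendsto_measure_of_isClopen_of_tendsto hUρ hclopen
  have h2 : Tendsto (fun t => (u t : Measure Config) S) U (𝓝 ((ρ : Measure Config) S)) := by
    have h3 := (ENNReal.continuous_coe.tendsto _).comp h1
    simpa [Function.comp_def] using h3
  exact tendsto_nhds_unique h2 ((h S hS).mono_left hU)

theorem ergodic_of_contract (N : Noise) (η : ℕ → ℝ≥0∞) (hη0 : Tendsto η atTop (𝓝 0))
    (hη : ∀ t i p, (Q N)^[t] (hd i) p ≤ η t) : Ergodic N := by
  -- uniform comparison of two initial measures on cylinders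
  have hcomp : ∀ S ∈ measurableCylinders (fun _ : ℤ × ℤ => Fin 2), ∃ C : ℝ≥0∞, C ≠ ∞ ∧
      ∀ t (μ μ' : ProbabilityMeasure Config), ((Phi N)^[t] μ : Measure Config) S ≤
        ((Phi N)^[t] μ' : Measure Config) S + C * η t := by
    intro S hS
    obtain ⟨s, T, hT, rfl⟩ := (mem_measurableCylinders S).1 hS
    refine ⟨s.card, by simp, fun t μ μ' => ?_⟩
    refine cylinder_contract N _ (hT.cylinder s) s (fun x y hxy => ?_) t (η t) (hη t) μ μ'
    have : s.restrict x = s.restrict y := by
      funext i
      exact hxy i.1 i.2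
    simp only [mem_cylinder, this]
  -- a cluster point of the orbit of a fixed measure
  let μ₀ : ProbabilityMeasure Config := ⟨Measure.dirac (fun _ => 0), inferInstance⟩
  obtain ⟨π, hπ⟩ : ∃ π, MapClusterPt π atTop (fun t : ℕ => (Phi N)^[t] μ₀) :=
    exists_clusterPt_of_compactSpace _
  rw [mapClusterPt_iff_ultrafilter] at hπ
  obtain ⟨U, hU, hUπ⟩ := hπ
  have hlim : ∀ μ : ProbabilityMeasure Config, Tendsto (fun t : ℕ => (Phi N)^[t] μ) atTop (𝓝 π) := by
    intro μ
    refine tendsto_of_cylinders _ π (fun S hS => ?_)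
    obtain ⟨C, hC, hcmp⟩ := hcomp S hS
    have hclopen : IsClopen S := by
      obtain ⟨s, T, _, rfl⟩ := (mem_measurableCylinders S).1 hS
      have hT : IsClopen T := isClopen_discrete T
      exact hT.preimage (continuous_pi (fun i => continuous_apply _))
    have h2 : Tendsto (fun t : ℕ => ((Phi N)^[t] μ₀ : Measure Config) S) U
        (𝓝 ((π : Measure Config) S)) := by
      have h1 := ProbabilityMeasure.tendsto_measure_of_isClopen_of_tendsto hUπ hclopen
      have h3 := (ENNReal.continuous_coe.tendsto _).comp h1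
      simpa [Function.comp_def] using h3
    have hge : ∀ t : ℕ, ∀ᶠ n in (U : Filter ℕ), t ≤ n := fun t => hU (eventually_ge_atTop t)
    have hsplit : ∀ t n : ℕ, t ≤ n → (Phi N)^[n] μ₀ = (Phi N)^[t] ((Phi N)^[n - t] μ₀) := by
      intro t n htn
      rw [← Function.iterate_add_apply]
      congr 2
      omega
    have hup : ∀ t : ℕ, (π : Measure Config) S ≤ ((Phi N)^[t] μ : Measure Config) S + C * η t := by
      intro t
      refine le_of_tendsto h2 ?_
      filter_upwards [hge t] with n hn
      rw [hsplit t n hn]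
      exact hcmp t _ _
    have hlow : ∀ t : ℕ, ((Phi N)^[t] μ : Measure Config) S ≤ (π : Measure Config) S + C * η t := by
      intro t
      have h4 : Tendsto (fun n : ℕ => ((Phi N)^[n] μ₀ : Measure Config) S + C * η t) U
          (𝓝 ((π : Measure Config) S + C * η t)) := h2.add tendsto_const_nhds
      refine ge_of_tendsto h4 ?_
      filter_upwards [hge t] with n hn
      rw [hsplit t n hn]
      exact hcmp t _ _
    have hCη : Tendsto (fun t => C * η t) atTop (𝓝 0) := by
      have := ENNReal.Tendsto.const_mul (a := C) hη0 (Or.inr hC)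
      simpa using this
    refine tendsto_of_tendsto_of_tendsto_of_le_of_le (g := fun t => (π : Measure Config) S - C * η t)
      (h := fun t => (π : Measure Config) S + C * η t) ?_ ?_ (fun t => ?_) hlow
    · have := ENNReal.Tendsto.sub (tendsto_const_nhds (x := (π : Measure Config) S)) hCη
        (Or.inl (measure_ne_top _ _))
      simpa using this
    · have := (tendsto_const_nhds (x := (π : Measure Config) S)).add hCη
      simpa using this
    · exact tsub_le_iff_right.2 (hup t)
  have hinv : Phi N π = π := by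
    have h1 : Tendsto (fun t : ℕ => Phi N ((Phi N)^[t] μ₀)) atTop (𝓝 (Phi N π)) :=
      ((continuous_Phi N).tendsto π).comp (hlim μ₀)
    have h2 : Tendsto (fun t : ℕ => Phi N ((Phi N)^[t] μ₀)) atTop (𝓝 π) := by
      have := (hlim μ₀).comp (tendsto_add_atTop_nat 1)
      refine this.congr (fun t => ?_)
      simp only [Function.comp_apply]
      rw [Function.iterate_succ_apply']
    exact tendsto_nhds_unique h1 h2
  refine ⟨π, hinv, fun μ hμ => ?_, hlim⟩
  have h1 : ∀ t : ℕ, (Phi N)^[t] μ = μ := fun t => Function.iterate_fixed hμ t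
  have h2 := hlim μ
  simp_rw [h1] at h2
  exact tendsto_nhds_unique tendsto_const_nhds h2

/-- The noise with `θ(0,1) = e` and `θ(1,0) = d`. -/
noncomputable def biased (e d : ℝ) (he : 0 ≤ e) (he' : e ≤ 1) (hd : 0 ≤ d) (hd' : d ≤ 1) : Noise where
  θ := ![![1 - e, e], ![d, 1 - d]]
  nonneg := by
    intro a b
    fin_cases a <;> fin_cases b <;> simp <;> linarith
  row_sum := by
    intro a
    fin_cases a <;> simp [Fin.sum_univ_two]

/-- **Negated form of Q1**: for every `ε₀ > 0` there is a positive zero-range noise `θ` with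
`ε(θ) ≤ ε₀` such that the perturbed majority automaton `Φ_θ` is ergodic. -/
theorem result : ∀ ε₀ : ℝ, 0 < ε₀ → ∃ θ : Noise, θ.Positive ∧ θ.error ≤ ε₀ ∧ Ergodic θ := by
  intro ε₀ hε₀
  -- choice of the rate of errors `0 → 1`
  set e : ℝ := min ε₀ (1 / 2) with he
  have he0 : 0 < e := by positivity
  have he1 : e ≤ 1 / 2 := min_le_right _ _
  have heε : e ≤ ε₀ := min_le_left _ _
  -- the contraction factor
  set r : ℝ := 1 - (e * (1 / 2)) ^ 4 with hr
  have hr0 : 0 ≤ r := by
    have : (e * (1 / 2)) ^ 4 ≤ 1 := pow_le_one₀ (by positivity) (by linarith)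
    linarith
  have hr1 : r < 1 := by
    have : 0 < (e * (1 / 2)) ^ 4 := by positivity
    linarith
  -- choice of the time `T`
  obtain ⟨T, hT1, hT⟩ : ∃ T : ℕ, 1 ≤ T ∧ 2 * r ^ T * (2 * T + 1) ^ 2 < 1 / 2 := by
    have h1 := tendsto_pow_const_mul_const_pow_of_abs_lt_one 2 (r := r) (by rw [abs_of_nonneg hr0]; exact hr1)
    have h2 : ∀ᶠ n : ℕ in atTop, (n : ℝ) ^ 2 * r ^ n < 1 / 36 := h1.eventually_lt_const (by norm_num)
    obtain ⟨T, h3, h4⟩ := (h2.and (eventually_ge_atTop 1)).exists
    refine ⟨T, h4, ?_⟩
    have hTr : (1 : ℝ) ≤ T := by exact_mod_cast h4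
    have h5 : (2 * (T : ℝ) + 1) ^ 2 ≤ 9 * T ^ 2 := by nlinarith
    have h6 : 0 ≤ r ^ T := pow_nonneg hr0 T
    calc 2 * r ^ T * (2 * T + 1) ^ 2 ≤ 2 * r ^ T * (9 * T ^ 2) := by gcongr
      _ = 18 * ((T : ℝ) ^ 2 * r ^ T) := by ring
      _ < 18 * (1 / 36) := by gcongr
      _ = 1 / 2 := by norm_num
  -- choice of the rate of errors `1 → 0`
  set K : ℝ := 2 * (T * 4) * (2 * T + 1) ^ 2 with hK
  have hK0 : 0 < K := by positivity
  set d : ℝ := min e (1 / (4 * K)) with hddef
  have hd0 : 0 < d := by positivity
  have hde : d ≤ e := min_le_left _ _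
  have hdK : d * K ≤ 1 / 4 := by
    calc d * K ≤ (1 / (4 * K)) * K := by gcongr; exact min_le_right _ _
      _ = 1 / 4 := by field_simp
  let θ : Noise := biased e d he0.le (by linarith) hd0.le (by linarith)
  have h01 : θ.θ 0 1 = e := rfl
  have h10 : θ.θ 1 0 = d := rfl
  have h11 : θ.θ 1 1 = 1 - d := rfl
  have h00 : θ.θ 0 0 = 1 - e := rfl
  refine ⟨θ, ?_, ?_, ?_⟩
  · intro a b
    fin_cases a <;> fin_cases b
    · change 0 < θ.θ 0 0; rw [h00]; linarith
    · change 0 < θ.θ 0 1; rw [h01]; exact he0
    · change 0 < θ.θ 1 0; rw [h10]; exact hd0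
    · change 0 < θ.θ 1 1; rw [h11]; linarith
  · unfold Noise.error
    rw [h00, h11]
    apply max_le <;> linarith
  · -- the contraction
    set R : ℝ≥0∞ := ENNReal.ofReal r with hR
    set s : ℝ≥0∞ := 4 * ENNReal.ofReal d with hs
    have hR1 : R ≤ 1 := by rw [hR]; exact ENNReal.ofReal_le_one.2 hr1.le
    have hPv : ∀ i x, P θ (v i) x ≤ s + R * v i x := by
      intro i x
      refine (P_v_le θ i x).trans ?_
      rw [h10, h01, h11]
      gcongr
      rw [← ENNReal.ofReal_mul he0.le, ← ENNReal.ofReal_pow (by nlinarith), ← ENNReal.ofReal_one,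
        ← ENNReal.ofReal_sub _ (by
          have : 0 ≤ e * (1 - d) := by nlinarith
          positivity)]
      apply ENNReal.ofReal_le_ofReal
      rw [hr]
      have h7 : e * (1 / 2) ≤ e * (1 - d) := by
        apply mul_le_mul_of_nonneg_left _ he0.le
        linarith
      have h8 : (e * (1 / 2)) ^ 4 ≤ (e * (1 - d)) ^ 4 := pow_le_pow_left₀ (by positivity) h7 4
      linarith
    set ρ : ℝ≥0∞ := (2 * (T * s + R ^ T)) * ((2 * T + 1) ^ 2 : ℕ) with hρ
    have hρ1 : ρ < 1 := by
      have h9 : ρ = ENNReal.ofReal ((2 * (T * (4 * d) + r ^ T)) * (2 * T + 1) ^ 2) := by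
        rw [hρ, hs, hR]
        rw [ENNReal.ofReal_mul (by positivity), ENNReal.ofReal_mul (by norm_num),
          ENNReal.ofReal_add (by positivity) (by positivity), ENNReal.ofReal_mul (by positivity),
          ENNReal.ofReal_mul (by norm_num), ENNReal.ofReal_pow hr0]
        congr 1
        · simp
        · rw [ENNReal.ofReal_pow (by positivity)]
          push_cast
          congr 1
          rw [ENNReal.ofReal_add (by positivity) (by norm_num), ENNReal.ofReal_mul (by norm_num)]
          simp
      rw [h9]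
      rw [ENNReal.ofReal_lt_one]
      have h10' : (2 * (T * (4 * d) + r ^ T)) * (2 * T + 1) ^ 2 =
          d * K + 2 * r ^ T * (2 * T + 1) ^ 2 := by rw [hK]; ring
      rw [h10']
      linarith
    have hcontract : ∀ i k p, (Q θ)^[T * k] (hd i) p ≤ ρ ^ k := fun i k p =>
      Q_iter_contract θ R s hR1 hPv T k i p
    refine ergodic_of_contract θ (fun t => ρ ^ (t / T)) ?_
      (fun t i p => Q_iter_le_div θ ρ T i (hcontract i) t p)
    have h11' : Tendsto (fun t : ℕ => t / T) atTop atTop :=
      Nat.tendsto_div_const_atTop (by omega)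
    exact (ENNReal.tendsto_pow_atTop_nhds_zero_of_lt_one hρ1).comp h11'

end Pool.Agent.Results.MP_417bbc_pr.BiasedNoiseErgodic
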